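import Pool.Agent.Helper58.Bil.GeoDefs

/-!
# BIL-TRANS: transport of a function by the diffeomorphism `x ↦ x + g x`
-/

set_option autoImplicit false

namespace Pool.Agent.Helper58.Bil

open Real Set Filter Topology

namespace TransAux

/-- smoothness of a left inverse -/
theorem contDiffAt_leftInv {φ ψ : ℝ → ℝ} {x₀ c : ℝ}
    (hφ : ContDiffAt ℝ ((⊤ : ℕ∞) : WithTop ℕ∞) φ x₀) (hd : HasDerivAt φ c x₀) (hc : c ≠ 0)
    (hl : ∀ᶠ x in 𝓝 x₀, ψ (φ x) = x) :
    ContDiffAt ℝ ((⊤ : ℕ∞) : WithTop ℕ∞) ψ (φ x₀) := by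
  have hn : ((⊤ : ℕ∞) : WithTop ℕ∞) ≠ 0 := by simp
  have hd' : HasFDerivAt φ ((ContinuousLinearEquiv.unitsEquivAut ℝ (Units.mk0 c hc) :
      ℝ ≃L[ℝ] ℝ) : ℝ →L[ℝ] ℝ) x₀ := hd.hasFDerivAt_equiv hc
  have h1 := hφ.to_localInverse hd' hn
  have hs : HasStrictFDerivAt φ ((ContinuousLinearEquiv.unitsEquivAut ℝ (Units.mk0 c hc) :
      ℝ ≃L[ℝ] ℝ) : ℝ →L[ℝ] ℝ) x₀ := hφ.hasStrictFDerivAt' hd' hn
  have h2 := hs.localInverse_unique hl
  exact h1.congr_of_eventuallyEq h2

/-- the derivative of a smooth function is differentiable -/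
theorem hasDerivAt_deriv {f : ℝ → ℝ} {x : ℝ} (hf : ContDiffAt ℝ ((⊤ : ℕ∞) : WithTop ℕ∞) f x) :
    HasDerivAt (deriv f) (deriv (deriv f) x) x := by
  have h1 : ContDiffAt ℝ 1 (fderiv ℝ f) x := hf.fderiv_right (by norm_cast)
  have h2 : ContDiffAt ℝ 1 (deriv f) x := h1.clm_apply contDiffAt_const
  exact (h2.differentiableAt (by simp)).hasDerivAt

end TransAux

theorem trans_fun {g k : ℝ → ℝ} {b : ℝ} (hb : b ≤ 1 / 100) (hg : Good g (1 / 5) b)
    (hk : Good k (1 / 5) b) :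
    ∃ F : ℝ → ℝ, Good F (19 / 100) (4 * b) ∧
      (∀ x < 1 / 5, x + g x < 19 / 100 →
        F (x + g x) = k x ∧ deriv F (x + g x) * (1 + deriv g x) = deriv k x) ∧
      (∀ y < 19 / 100, ∃ x < 1 / 5, x + g x = y ∧ (0 < y → 0 < x)) := by
  have hb0 : 0 ≤ b := (abs_nonneg _).trans (hg.small 0 (by norm_num [mem_Iio])).1
  set φ : ℝ → ℝ := fun x => x + g x with hφ
  have hgd : ∀ x < 1 / 5, ContDiffAt ℝ ((⊤ : ℕ∞) : WithTop ℕ∞) g x := fun x hx =>
    hg.sm.contDiffAt (isOpen_Iio.mem_nhds hx)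
  have hkd : ∀ x < 1 / 5, ContDiffAt ℝ ((⊤ : ℕ∞) : WithTop ℕ∞) k x := fun x hx =>
    hk.sm.contDiffAt (isOpen_Iio.mem_nhds hx)
  have hφd : ∀ x < 1 / 5, ContDiffAt ℝ ((⊤ : ℕ∞) : WithTop ℕ∞) φ x := fun x hx =>
    contDiffAt_id.add (hgd x hx)
  have hgder : ∀ x < 1 / 5, HasDerivAt g (deriv g x) x := fun x hx =>
    ((hgd x hx).differentiableAt (by simp)).hasDerivAt
  have hder : ∀ x < 1 / 5, HasDerivAt φ (1 + deriv g x) x := fun x hx =>
    (hasDerivAt_id x).add (hgder x hx)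
  have hpos : ∀ x < 1 / 5, 99 / 100 ≤ 1 + deriv g x := by
    intro x hx
    have h1 := (hg.small x hx).2.1
    have h2 := (abs_le.1 h1).1
    linarith
  have hmono : StrictMonoOn φ (Iio (1 / 5)) := by
    apply strictMonoOn_of_deriv_pos (convex_Iio _)
    · intro x hx
      exact (hder x hx).continuousAt.continuousWithinAt
    · intro x hx
      rw [interior_Iio] at hx
      rw [(hder x hx).deriv]
      linarith [hpos x hx]
  have hle0 : ∀ x ≤ 0, φ x = x := by
    intro x hx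
    simp [hφ, hg.zero x hx]
  have hsurj : ∀ y < 19 / 100, ∃ x < 1 / 5, φ x = y ∧ (0 < y → 0 < x) := by
    intro y hy
    rcases le_or_gt y 0 with hy0 | hy0
    · exact ⟨y, by linarith, hle0 y hy0, fun h => absurd h (not_lt.2 hy0)⟩
    · set z := (y + 1 / 100 + 1 / 5) / 2 with hz
      have hz1 : z < 1 / 5 := by rw [hz]; linarith
      have hz2 : y < φ z := by
        have h1 := (abs_le.1 (hg.small z hz1).1).1
        have h2 : y + 1 / 100 < z := by rw [hz]; linarith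
        simp only [hφ]
        linarith
      have hz0 : 0 ≤ z := by rw [hz]; linarith
      have hc : ContinuousOn φ (Icc 0 z) := fun x hx =>
        (hder x (lt_of_le_of_lt hx.2 hz1)).continuousAt.continuousWithinAt
      have hmem : y ∈ Icc (φ 0) (φ z) := ⟨by rw [hle0 0 le_rfl]; exact hy0.le, hz2.le⟩
      obtain ⟨x, hx, hxy⟩ := intermediate_value_Icc hz0 hc hmem
      refine ⟨x, lt_of_le_of_lt hx.2 hz1, hxy, fun _ => ?_⟩
      rcases hx.1.eq_or_lt with h | h
      · exfalso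
        rw [← h, hle0 0 le_rfl] at hxy
        linarith
      · exact h
  -- the inverse
  have hch : ∀ y, ∃ x, y < 19 / 100 → x < 1 / 5 ∧ φ x = y := by
    intro y
    by_cases hy : y < 19 / 100
    · obtain ⟨x, hx, hxy, -⟩ := hsurj y hy
      exact ⟨x, fun _ => ⟨hx, hxy⟩⟩
    · exact ⟨0, fun h => absurd h hy⟩
  choose ψ hψ using hch
  have hleft : ∀ x < 1 / 5, φ x < 19 / 100 → ψ (φ x) = x := by
    intro x hx hx'
    obtain ⟨h1, h2⟩ := hψ (φ x) hx'
    exact hmono.injOn h1 hx h2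
  have hev : ∀ x < 1 / 5, φ x < 19 / 100 → ∀ᶠ x' in 𝓝 x, x' < 1 / 5 ∧ φ x' < 19 / 100 := by
    intro x hx hx'
    filter_upwards [Iio_mem_nhds hx, (hder x hx).continuousAt.preimage_mem_nhds
      (Iio_mem_nhds hx')] with x' h1 h2
    exact ⟨h1, h2⟩
  have hψd : ∀ x < 1 / 5, φ x < 19 / 100 → ContDiffAt ℝ ((⊤ : ℕ∞) : WithTop ℕ∞) ψ (φ x) := by
    intro x hx hx'
    refine TransAux.contDiffAt_leftInv (hφd x hx) (hder x hx) (by linarith [hpos x hx]) ?_
    filter_upwards [hev x hx hx'] with x' h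
    exact hleft x' h.1 h.2
  have hFd : ∀ x < 1 / 5, φ x < 19 / 100 →
      ContDiffAt ℝ ((⊤ : ℕ∞) : WithTop ℕ∞) (fun y => k (ψ y)) (φ x) := by
    intro x hx hx'
    have h1 := hkd x hx
    rw [← hleft x hx hx'] at h1
    exact h1.comp (φ x) (hψd x hx hx')
  -- first derivative
  have hF1 : ∀ x < 1 / 5, φ x < 19 / 100 →
      deriv (fun y => k (ψ y)) (φ x) * (1 + deriv g x) = deriv k x := by
    intro x hx hx'
    have h1 : HasDerivAt (fun y => k (ψ y)) (deriv (fun y => k (ψ y)) (φ x)) (φ x) :=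
      ((hFd x hx hx').differentiableAt (by simp)).hasDerivAt
    have h2 := h1.comp x (hder x hx)
    have h3 : (fun y => k (ψ y)) ∘ φ =ᶠ[𝓝 x] k := by
      filter_upwards [hev x hx hx'] with x' h
      simp only [Function.comp]
      rw [hleft x' h.1 h.2]
    have h4 := h2.congr_of_eventuallyEq h3.symm
    exact h4.deriv.symm
  -- second derivative
  have hF2 : ∀ x < 1 / 5, φ x < 19 / 100 →
      deriv (deriv (fun y => k (ψ y))) (φ x) * (1 + deriv g x) * (1 + deriv g x) +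
        deriv (fun y => k (ψ y)) (φ x) * deriv (deriv g) x = deriv (deriv k) x := by
    intro x hx hx'
    have h1 : HasDerivAt (deriv (fun y => k (ψ y))) (deriv (deriv (fun y => k (ψ y))) (φ x))
        (φ x) := TransAux.hasDerivAt_deriv (hFd x hx hx')
    have h1g : HasDerivAt (deriv g) (deriv (deriv g) x) x :=
      TransAux.hasDerivAt_deriv (hgd x hx)
    have h2 := (h1.comp x (hder x hx)).mul (h1g.const_add 1)
    have h3 : (fun x => (deriv (fun y => k (ψ y)) ∘ φ) x * (1 + deriv g x)) =ᶠ[𝓝 x] deriv k := by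
      filter_upwards [hev x hx hx'] with x' h
      exact hF1 x' h.1 h.2
    have h4 := h3.deriv_eq
    rw [← h4]
    exact h2.deriv.symm
  refine ⟨fun y => k (ψ y), ⟨?_, ?_, ?_⟩, ?_, ?_⟩
  · intro y hy
    obtain ⟨h1, h2⟩ := hψ y hy
    have h3 := hFd (ψ y) h1 (by rw [h2]; exact hy)
    rw [h2] at h3
    exact h3.contDiffWithinAt
  · intro y hy
    obtain ⟨h1, h2⟩ := hψ y (by linarith)
    have h3 : ψ y = y := hmono.injOn h1 (show y ∈ Iio (1 / 5 : ℝ) by
      rw [mem_Iio]; linarith) (by rw [h2, hle0 y hy])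
    simp only [h3]
    exact hk.zero y hy
  · intro y hy
    obtain ⟨h1, h2⟩ := hψ y hy
    have hx' : φ (ψ y) < 19 / 100 := by rw [h2]; exact hy
    have e1 := hF1 (ψ y) h1 hx'
    have e2 := hF2 (ψ y) h1 hx'
    rw [h2] at e1 e2
    obtain ⟨k0, k1, k2⟩ := hk.small (ψ y) h1
    obtain ⟨g0, g1, g2⟩ := hg.small (ψ y) h1
    have hp := hpos (ψ y) h1
    set D1 := deriv (fun y => k (ψ y)) y with hD1
    set D2 := deriv (deriv (fun y => k (ψ y))) y with hD2
    set q := 1 + deriv g (ψ y) with hq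
    have hD1b : |D1| ≤ 2 * b := by
      have h3 : |D1| * q = |deriv k (ψ y)| := by
        rw [← e1, abs_mul, abs_of_nonneg (by linarith : (0:ℝ) ≤ q)]
      nlinarith [abs_nonneg D1]
    have hD2b : |D2| ≤ 4 * b := by
      have h3 : |D2| * (q * q) = |deriv (deriv k) (ψ y) - D1 * deriv (deriv g) (ψ y)| := by
        rw [← e2, add_sub_cancel_right, mul_assoc, abs_mul, abs_of_nonneg (by nlinarith :
          (0:ℝ) ≤ q * q)]
      have h4 : |deriv (deriv k) (ψ y) - D1 * deriv (deriv g) (ψ y)| ≤ b + 2 * b * b := by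
        refine (abs_sub _ _).trans ?_
        rw [abs_mul]
        have := mul_le_mul hD1b g2 (abs_nonneg _) (by linarith)
        linarith
      have h5 : (98 / 100 : ℝ) ≤ q * q := by nlinarith
      nlinarith [abs_nonneg D2]
    exact ⟨by linarith, by linarith, hD2b⟩
  · intro x hx hx'
    exact ⟨by simp only; rw [hleft x hx hx'], hF1 x hx hx'⟩
  · exact hsurj

end Pool.Agent.Helper58.Bil
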